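import Mathlib

namespace Pool.Agent.Results.MP_fb0157_co.Q2

/-- the `n`-gon `x` (indices mod `n`) in `E^d` is `k`-equilateral -/
def Equilateral (k : ℕ) {n d : ℕ} (x : ZMod n → EuclideanSpace ℝ (Fin d)) : Prop :=
  ∀ j : ℕ, 1 ≤ j → j ≤ k → ∃ c : ℝ, ∀ i, dist (x i) (x (i + (j : ZMod n))) = c

/-- the affine hull of the vertices has dimension exactly `m` -/
def Spans (m : ℕ) {n d : ℕ} (x : ZMod n → EuclideanSpace ℝ (Fin d)) : Prop :=
  Module.finrank ℝ (affineSpan ℝ (Set.range x)).direction = m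

def A : Fin 9 → ℤ := ![6, -6, 3, -3, 3, 3, -3, 3, -6]
def B : Fin 9 → ℤ := ![0, 0, -3, 3, -3, 3, -3, 3, 0]
def C : Fin 9 → ℤ := ![0, 2, -2, 0, 2, -2, 0, 2, -2]

noncomputable def P (i : ZMod 9) : EuclideanSpace ℝ (Fin 3) :=
  !₂[(A i : ℝ), (B i : ℝ) * √3, (C i : ℝ) * √3]

def Q (i j : Fin 9) : ℤ := (A i - A j) ^ 2 + 3 * (B i - B j) ^ 2 + 3 * (C i - C j) ^ 2

lemma dist_P (i j : ZMod 9) : dist (P i) (P j) = √(Q i j : ℝ) := by
  have h : √3 * √3 = (3 : ℝ) := Real.mul_self_sqrt (by norm_num)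
  rw [EuclideanSpace.dist_eq]
  congr 1
  simp only [P, Q, Fin.sum_univ_three, Real.dist_eq, sq_abs]
  push_cast
  show ((A i : ℝ) - A j) ^ 2 + ((B i : ℝ) * √3 - B j * √3) ^ 2 +
    ((C i : ℝ) * √3 - C j * √3) ^ 2 = _
  linear_combination ((B i - B j : ℝ) ^ 2 + (C i - C j : ℝ) ^ 2) * h

theorem result : ∃ (k n d : ℕ) (x : ZMod n → EuclideanSpace ℝ (Fin d)),
    2 ≤ k ∧ Odd n ∧ 2 * k + 1 < n ∧ Function.Injective x ∧
      Equilateral (k + 1) x ∧ Spans (2 * k - 1) x := by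
  have h : √3 * √3 = (3 : ℝ) := Real.mul_self_sqrt (by norm_num)
  refine ⟨2, 9, 3, P, le_rfl, by decide, by norm_num, ?_, ?_, ?_⟩
  · intro i j hij
    have h1 := dist_P i j
    rw [hij, dist_self] at h1
    have h2 : (Q i j : ℝ) ≤ 0 := Real.sqrt_eq_zero'.mp h1.symm
    have h3 : Q i j ≤ 0 := by exact_mod_cast h2
    have key : ∀ a b : Fin 9, Q a b ≤ 0 → a = b := by decide +kernel
    exact key i j h3
  · intro j h1 h2
    have k1 : ∀ a : Fin 9, Q a (a + 1) = 156 := by decide +kernel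
    have k2 : ∀ a : Fin 9, Q a (a + 2) = 48 := by decide +kernel
    have k3 : ∀ a : Fin 9, Q a (a + 3) = 108 := by decide +kernel
    interval_cases j
    · exact ⟨√((156 : ℤ) : ℝ), fun i => by rw [dist_P, ← k1 i]; rfl⟩
    · exact ⟨√((48 : ℤ) : ℝ), fun i => by rw [dist_P, ← k2 i]; rfl⟩
    · exact ⟨√((108 : ℤ) : ℝ), fun i => by rw [dist_P, ← k3 i]; rfl⟩
  · have htop : (affineSpan ℝ (Set.range P)).direction = ⊤ := by
      rw [direction_affineSpan, eq_top_iff]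
      intro v _
      have m : ∀ a b, P a -ᵥ P b ∈ vectorSpan ℝ (Set.range P) := fun a b =>
        vsub_mem_vectorSpan ℝ ⟨a, rfl⟩ ⟨b, rfl⟩
      have a0 : A (0 : ZMod 9) = 6 ∧ B (0 : ZMod 9) = 0 ∧ C (0 : ZMod 9) = 0 := by decide +kernel
      have a1 : A (1 : ZMod 9) = -6 ∧ B (1 : ZMod 9) = 0 ∧ C (1 : ZMod 9) = 2 := by decide +kernel
      have a3 : A (3 : ZMod 9) = -3 ∧ B (3 : ZMod 9) = 3 ∧ C (3 : ZMod 9) = 0 := by decide +kernel
      have a6 : A (6 : ZMod 9) = -3 ∧ B (6 : ZMod 9) = -3 ∧ C (6 : ZMod 9) = 0 := by decide +kernel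
      have a8 : A (8 : ZMod 9) = -6 ∧ B (8 : ZMod 9) = 0 ∧ C (8 : ZMod 9) = -2 := by decide +kernel
      have e : v = (v 0 / 12) • (P 0 -ᵥ P 1) + (v 1 * √3 / 18) • (P 3 -ᵥ P 6) +
          ((v 2 + v 0 * √3 / 6) * √3 / 12) • (P 1 -ᵥ P 8) := by
        ext t
        fin_cases t
        · simp [P, a0, a1, a3, a6, a8]
          ring
        · simp [P, a0, a1, a3, a6, a8]
          linear_combination (-(v 1) / 3) * h
        · simp [P, a0, a1, a3, a6, a8]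
          linear_combination (-(v 2 + v 0 * √3 / 6) / 3) * h
      rw [e]
      exact Submodule.add_mem _ (Submodule.add_mem _ (Submodule.smul_mem _ _ (m _ _))
        (Submodule.smul_mem _ _ (m _ _))) (Submodule.smul_mem _ _ (m _ _))
    unfold Spans
    rw [htop, finrank_top, finrank_euclideanSpace_fin]

end Pool.Agent.Results.MP_fb0157_co.Q2
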